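import Mathlib
import Pool.Agent.TH131.WMF.SpreadMain

/-!
# The monodromy-weight conjecture for semistable schemes of bounded degree

Fix `n` and `d`. There are finitely many strictly semistable closed subschemes `Y_i` of degree at
most `d` of `ℙ^n` over discrete valuation rings `𝒪_i` with finite residue fields, such that the
monodromy-weight conjecture for the `Y_i` implies the monodromy-weight conjecture for all strictly
semistable closed subschemes `X` of degree at most `d` of `ℙ^n_𝒪`, for all `𝒪`. More precisely: for
each `X`, either `H^w(X_K̄, ℚ_ℓ)` is mw pure of weight `w` for all `w` and all primes `ℓ` which are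
invertible on `X`, or for some `Y_i` with the residue characteristic of `X` and for all `ℓ` and `w`
mw purity of `H^w` of `Y_i` implies mw purity of `H^w` of `X`. In particular the conjecture holds
for all `X` of degree at most `d` over all `𝒪` of sufficiently large residue characteristic.

* `F`, `hl`, `hh`: the family of all projective simple normal crossing log schemes of degree at most
  `d` over log points, its cohomology, which is lisse, and Hodge theory in characteristic `0`.
* `𝒮`, `hc`, `hw`: the strictly semistable closed subschemes `X`, the comparison of the cohomology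
  of the geometric generic fibre of `X` with the log cohomology of the special fibre, and the Weil
  conjectures (for the terms of the weight spectral sequence).
-/

set_option autoImplicit false

namespace Pool.Agent.Results.MP_855f4c_ag.BoundedDegree

open Pool.Agent.TH131.WMF

/-- The monodromy-weight conjecture for strictly semistable schemes of bounded degree over all
discrete valuation rings with finite residue fields reduces to finitely many of them. -/
theorem result {K : ℕ → Type} [∀ ℓ, Field (K ℓ)] [∀ ℓ, CharZero (K ℓ)] {F : LogFamily K}
    (hl : F.IsLisse) (hh : F.HodgeTheory) (𝒮 : SemistableSchemes F) (hc : 𝒮.Comparison)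
    (hw : 𝒮.WeilConjectures) :
    ∃ S : Set 𝒮.Obj, S.Finite ∧ ∀ X : 𝒮.Obj,
      (∀ ℓ : ℕ, ℓ.Prime → ℓ ≠ 𝒮.p X → ∀ w, 𝒮.MWPure X ℓ w) ∨
      ∃ Y ∈ S, 𝒮.p Y = 𝒮.p X ∧
        ∀ ℓ : ℕ, ℓ.Prime → ℓ ≠ 𝒮.p X → ∀ w, 𝒮.MWPure Y ℓ w → 𝒮.MWPure X ℓ w :=
  finitely_many hl hh 𝒮 hc hw

end Pool.Agent.Results.MP_855f4c_ag.BoundedDegree
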