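import Mathlib
import Pool.Agent.TH131.WMF.Piece

/-!
# The monodromy-weight conjecture for families over a base with good reduction

Let `𝒪` be a henselian discrete valuation ring of characteristic `0` with finite residue field `k`,
`𝒵` a smooth projective `𝒪`-scheme and `𝒳 → 𝒵` a projective relatively semistable morphism (étale
locally on `𝒳`, it is smooth over `𝒵[x_0, ..., x_a] / (x_0 ... x_a - π)`). Then `𝒳` is
projective semistable over `𝒪`. The theorem says: if the monodromy-weight conjecture holds for the
cohomology in degrees `≤ m` of one fibre `𝒳_z`, `z ∈ 𝒵(𝒪)`, then it holds for `H^m` of `𝒳`.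

For example, the conjecture holds for `𝒳` if `𝒳 → 𝒵` has relative dimension at most `2`
(Rapoport–Zink), or if one fibre of `𝒳_K → 𝒵_K` over a point of `𝒵_K(K)` is an abelian variety or a
complete intersection in a projective toric variety (Grothendieck, Scholze); the dimension of `𝒵` is
arbitrary.

* `B`, `L`, `C`, `Φ`, `hW`: the base `𝒵_k`, the lisse Weil sheaves on it, the cohomology of sheaves
  on `𝒵_{k̄}` with its Frobenius operators, and Deligne's theorem (Weil II).
* `F`, `hL`, `M`, `hs`: the nearby cycle sheaves of `𝒳 → 𝒵`, their weight filtration, and the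
  semisimplicity theorem of Deligne (Hodge II) for the smooth projective morphism `𝒳_K → 𝒵_K`.
-/

set_option autoImplicit false

namespace Pool.Agent.Results.MP_855f4c_ag.FamiliesOverGoodBase

open Pool.Agent.TH131.WMF

/-- If the monodromy-weight conjecture holds for `H^b` of the fibre over `z`, for all `b ≤ m`, then
it holds for `H^m` of the total space. -/
theorem result {B : Base} {K : Type} [Field K] [CharZero K] (L : LisseSheaves B K)
    {C : Cohomology B K} (Φ : FrobeniusAction C) (hW : WeilTwo L Φ) (F : Family B K)
    (hL : ∀ b, L.Lisse (F.V b)) (M : ∀ b, WeightFiltration (F.V b))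
    (hs : ∀ b, Semisimple (F.V b)) (m : ℕ)
    (hz : ∀ b ≤ m, IsMonodromyWeightPure B.q b ((F.V b).act B.z) (F.N b)) :
    IsMonodromyWeightPure B.q m (F.frobTotal C Φ m) (F.monodromy C m) := by
  refine mwPure_prod _ _ _ fun j => ?_
  have h := mwPure_H (j := (j : ℕ)) L (hL (m - j)) (hs (m - j)) Φ hW (F.N (m - j))
    (F.N_mor (m - j)) (M (m - j)) ((m - j : ℕ) : ℤ) (hz (m - j) (by omega))
  have hm : ((m - (j : ℕ) : ℕ) : ℤ) + (j : ℕ) = m := by
    have := j.2
    omega
  rw [hm] at h
  exact h

end Pool.Agent.Results.MP_855f4c_ag.FamiliesOverGoodBase
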