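import Pool.Agent.TH122.WmE

/-!
# MP_855f4c_ag: the monodromy-weight conjecture and Galois cohomology

Let `K` be a local field with finite residue field of characteristic `p` and `ℓ ≠ p`. We consider all
projective semistable schemes `X` over the valuation rings of all finite extensions `K'` of `K`. The
following are equivalent:

1. the monodromy-weight conjecture holds for all `X` and all `H ^ i (X)`;
2. for all `X` and `i` the weights of the invariants of inertia in `H ^ i (X)` are at most `i`;
3. for all `X` and `i` the number `i + 1` is not a weight of the invariants of inertia in `H ^ i (X)`;
4. for all `X` of odd dimension `2 j - 1` the group `H ^ 0 (K', H ^ (2 j - 1) (X) (j))` is zero;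
5. for all `X` of odd dimension `2 j - 1` the group `H ^ 1 (K', H ^ (2 j - 1) (X) (j))` is zero.

The proof is by products with powers of elliptic curves with split multiplicative reduction, which
shift the failure of the conjecture to the first weight above `i`, and with abelian varieties with good
reduction, which make the Frobenius eigenvalue a power of `q` (Honda-Tate).
-/

universe u v

namespace Pool.Agent.Results.MP_855f4c_ag.GaloisCohomology

open Pool.Agent.TH122.Wm

/-- **The monodromy-weight conjecture for all projective semistable schemes is equivalent to the
vanishing of the Galois cohomology of `H ^ (2 j - 1) (X) (j)` for all `X` of dimension `2 j - 1`.** -/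
theorem result {E : Type u} [Field E] [CharZero E] [IsAlgClosed E] (hE : Nonempty (E →+* ℂ))
    (𝒯 : Theory.{u, v} E) :
    [𝒯.MonodromyWeight, 𝒯.WeightsAtMost, 𝒯.NextWeightMissing, 𝒯.NoGaloisInvariants,
      𝒯.NoGaloisCohomology].TFAE :=
  Theory.tfae_mw 𝒯 hE

end Pool.Agent.Results.MP_855f4c_ag.GaloisCohomology
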