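import Pool.Agent.TH131.Near.Geo

/-!
# The monodromy-weight conjecture near a degenerate fibre

Let `L` be a local field of characteristic `0` with residue characteristic `p`, `C` a smooth curve
over `L`, `0` a rational point of `C` with a coordinate `t`, and `𝒳 → C` a projective
morphism, smooth outside of `0`, with `𝒳` regular and such that the fibre `𝒳_0` is a reduced divisor
with simple normal crossings. Let `ℓ ≠ p` be a prime such that the monodromy-weight conjecture
for `ℓ`-adic cohomology holds for the strata of `𝒳_0`. Then there is a small punctured disc around
`0` such that the monodromy-weight conjecture holds for the `ℓ`-adic cohomology of all fibres `𝒳_t`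
over the points of this disc (with coordinates in an algebraic closure of `L`): it holds if the
valuation of `t` is not in a certain finite set of rational numbers, hence if `t` is close to
`0`.

The proof: let `V` be the nearby cycle cohomology, with the monodromy operators `N₀` and `N₁`. The
weight spectral sequence expresses the graded pieces of the monodromy filtration `L` of `N₁` by the
cohomology of the strata, so these graded pieces are pure for `N₀`. If `L` is split, the graded
operators of `N₀` and `N₁` are two commuting Lefschetz operators, for two gradings, so their sum has
the Lefschetz property for the total grading. The operators `N₀ + a N₁` are conjugate to operators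
which converge to this sum if `a` tends to infinity, so they have the Lefschetz property for all
but finitely many values of `a`.
-/

set_option autoImplicit false

namespace Pool.Agent.Results.MP_855f4c_ag.NearDegenerateFibres

open Pool.Agent.TH131.Near

/-- If the monodromy-weight conjecture holds for the strata of the degenerate fibre, then it holds
for all fibres in a neighbourhood of the degenerate fibre. -/
theorem result {K : ℕ → Type} [∀ ℓ, Field (K ℓ)] [∀ ℓ, CharZero (K ℓ)] (𝒟 : Degeneration K)
    (hs : 𝒟.WeightSpectralSequence) (hk : 𝒟.IsKummerNearZero) {ℓ : ℕ} (hℓ : ℓ.Prime)
    (hℓp : ℓ ≠ 𝒟.p) (h : ∀ (Y : 𝒟.Stratum) (j : ℕ), (𝒟.stratum Y ℓ j).IsPure j) :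
    ∃ S : Finset ℚ, ∀ t : 𝒟.Point, 𝒟.v t ∉ S → ∀ m : ℕ, m ≤ 2 * 𝒟.dim →
      (𝒟.fibre t ℓ m).IsPure m :=
  𝒟.near hs hk hℓ hℓp h

end Pool.Agent.Results.MP_855f4c_ag.NearDegenerateFibres
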